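import Mathlib

namespace Pool.Agent.Results.MP_ca4252_co.Slope

/-- the substitution `0 ↦ 01`, `1 ↦ 0`. -/
def σ (a : ℕ) : List ℕ := if a = 0 then [0, 1] else [0]

/-- the `n`-th iterate of the substitution on the word `0`. -/
def W : ℕ → List ℕ
  | 0 => [0]
  | n + 1 => (W n).flatMap σ

/-- the Fibonacci word; `W (i + 1)` has more than `i` letters. -/
def f (i : ℕ) : ℕ := (W (i + 1)).getD i 0

noncomputable def β : ℝ := (3 - √5) / 2

lemma s5 : √5 * √5 = 5 ∧ 2.236 < √5 ∧ √5 < 2.2361 := by
  have := Real.mul_self_sqrt (by norm_num : (0 : ℝ) ≤ 5)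
  have := Real.sqrt_nonneg 5
  refine ⟨by assumption, ?_, ?_⟩ <;> nlinarith

lemma irr : Irrational β := by
  have : Irrational √((5 : ℕ) : ℝ) := Nat.Prime.irrational_sqrt (by norm_num)
  simpa [β] using (this.natCast_sub 3).div_natCast (m := 2) (by norm_num)

noncomputable def y (n : ℕ) : ℝ := Int.fract ((n + 1 : ℕ) * β)

noncomputable def g (n : ℕ) : ℕ := if y n < 1 - β then 0 else 1

def pre (n : ℕ) (g : ℕ → ℕ) : List ℕ := (List.range n).map g

lemma step (n : ℕ) : ∃ L : ℕ, (L : ℤ) = 2 * n - ⌊((n + 1 : ℕ) : ℝ) * β⌋ ∧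
    (pre n g).flatMap σ = pre L g := by
  obtain ⟨s1, s2, s3⟩ := s5
  have hb : β * β = 3 * β - 1 := by unfold β; linarith
  have b0 : 0.38 < β := by unfold β; linarith
  have b1 : β < 0.39 := by unfold β; linarith
  induction n with
  | zero => exact ⟨0, by simp; constructor <;> linarith, rfl⟩
  | succ n ih =>
    obtain ⟨L, hL, e⟩ := ih
    have h1 := Int.floor_add_fract (((n + 1 : ℕ) : ℝ) * β)
    have h2 : 0 < y n := Int.fract_pos.2 ((irr.natCast_mul n.succ_ne_zero).ne_int _)
    have h3 : y n < 1 := Int.fract_lt_one _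
    change _ + y n = _ at h1
    set m := ⌊((n + 1 : ℕ) : ℝ) * β⌋
    set r := y n with hr
    have hL' : (L : ℝ) = 2 * n - m := by exact_mod_cast hL
    push_cast at h1
    have y1 : y L = (1 - β) * (1 - r) := Int.fract_eq_iff.2 ⟨by nlinarith, by nlinarith,
      n - m, by push_cast; rw [hL']; linear_combination (1 - β) * h1 - (n + 1) * hb⟩
    have y2 : y (L + 1) = 1 - r * (1 - β) := Int.fract_eq_iff.2 ⟨by nlinarith, by nlinarith,
      n - m, by push_cast; rw [hL']; linear_combination (1 - β) * h1 - (n + 1) * hb⟩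
    have g1 : g L = 0 := if_pos (by rw [y1]; nlinarith)
    simp only [pre, List.range_succ, List.map_append, List.flatMap_append] at e ⊢
    by_cases h : r < 1 - β
    · have g0 : g n = 0 := if_pos h
      have g2 : g (L + 1) = 1 := if_neg (by rw [y2]; nlinarith)
      have : ⌊((n + 1 + 1 : ℕ) : ℝ) * β⌋ = m :=
        Int.floor_eq_iff.2 ⟨by push_cast; linarith, by push_cast; linarith⟩
      exact ⟨L + 2, by rw [this]; push_cast; omega, by simp [e, g0, g1, g2, σ, List.range_succ]⟩
    · have g0 : g n = 1 := if_neg h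
      have : ⌊((n + 1 + 1 : ℕ) : ℝ) * β⌋ = m + 1 :=
        Int.floor_eq_iff.2 ⟨by push_cast; linarith, by push_cast; linarith⟩
      exact ⟨L + 1, by rw [this]; push_cast; omega, by simp [e, g0, g1, σ, List.range_succ]⟩

lemma W_eq (n : ℕ) : ∃ L, n < L ∧ W n = pre L g := by
  obtain ⟨s1, s2, s3⟩ := s5
  have b0 : 0.38 < β := by unfold β; linarith
  have b1 : β < 0.39 := by unfold β; linarith
  induction n with
  | zero =>
    have : y 0 = β := by simp [y]; constructor <;> linarith
    exact ⟨1, one_pos, by simp [W, pre, g, this]; linarith⟩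
  | succ n ih =>
    obtain ⟨L, h, e⟩ := ih
    obtain ⟨L', h', e'⟩ := step L
    refine ⟨L', ?_, by rw [W, e, e']⟩
    have : ⌊((L + 1 : ℕ) : ℝ) * β⌋ < L := by
      have : (1 : ℝ) ≤ L := by exact_mod_cast (by omega : 1 ≤ L)
      rw [Int.floor_lt]; push_cast; nlinarith
    omega

lemma f_eq (i : ℕ) : f i = g i := by
  obtain ⟨L, h, e⟩ := W_eq (i + 1)
  simp [f, e, pre, List.getD_eq_getElem?_getD, List.getElem?_range (by omega : i < L)]

/-- the norm form gives a lower bound. -/
lemma nrm (a b : ℤ) (ha : a ≠ 0) : 1 ≤ |a * β - b| * |a * β - b + a * √5| := by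
  obtain ⟨s1, -, -⟩ := s5
  have e : (a * β - b) * (a * β - b + a * √5) = (a ^ 2 - 3 * a * b + b ^ 2 : ℤ) := by
    unfold β; push_cast; linear_combination -(a ^ 2 / 4) * s1
  have h1 : a * β - b ≠ 0 := sub_ne_zero.2 ((irr.intCast_mul ha).ne_int b)
  have h2 : a * β - b + a * √5 ≠ 0 := fun h =>
    (irr.intCast_mul ha).ne_int (3 * a - b) (by unfold β at *; push_cast; linarith)
  rw [← abs_mul, e, ← Int.cast_abs]
  exact_mod_cast Int.one_le_abs (fun h => mul_ne_zero h1 h2 (by rw [e, h]; simp))

lemma main (d K : ℕ) (hd : 1 ≤ d) (z : ℕ → ℝ) (hz : ∀ j, ∃ m : ℤ, z (j + 1) - z j = d * β - m)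
    (hr : ∀ j ≤ K, ∀ l ≤ K, z j - z l < 1 - β) : (K : ℝ) < d * (√5 * (1 - β)) := by
  obtain ⟨s1, s2, s3⟩ := s5
  have hβ : β = (3 - √5) / 2 := rfl
  have d1 : (1 : ℝ) ≤ d := by exact_mod_cast hd
  by_contra hc
  push Not at hc
  rw [show √5 * (1 - β) = (5 - √5) / 2 by rw [hβ]; linarith] at hc
  have K1 : 1 ≤ K := by
    have : (1 : ℝ) ≤ K := by
      linarith [mul_le_mul_of_nonneg_left s3.le (by linarith : (0 : ℝ) ≤ d)]
    exact_mod_cast this
  obtain ⟨m, hm⟩ : ∃ m : ℤ, |d * β - m| ≤ 1 / 2 := ⟨_, abs_sub_round _⟩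
  set δ := d * β - m with hδ
  have st : ∀ j < K, z (j + 1) - z j = δ ∨ (z (j + 1) - z j = δ - 1 ∧ β < δ) ∨
      (z (j + 1) - z j = δ + 1 ∧ δ < -β) := fun j hj => by
    obtain ⟨k, hk⟩ := hz j
    have a1 := hr (j + 1) hj j hj.le
    have a2 := hr j hj.le (j + 1) hj
    rw [abs_le] at hm
    have a3 : m - k < 2 := by exact_mod_cast (by linarith : (m : ℝ) - k < 2)
    have a4 : -2 < m - k := by exact_mod_cast (by linarith : -2 < (m : ℝ) - k)
    rcases (by omega : k = m ∨ k = m + 1 ∨ k = m - 1) with h | h | h <;> rw [h] at hk <;>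
      push_cast at hk
    · exact Or.inl hk
    · exact Or.inr (Or.inl ⟨by linarith, by linarith⟩)
    · exact Or.inr (Or.inr ⟨by linarith, by linarith⟩)
  by_cases hs : |δ| ≤ β
  · have e : ∀ j ≤ K, z j - z 0 = j * δ := fun j => by
      induction j with
      | zero => simp
      | succ j ih =>
        intro hj
        have := ih (by omega)
        rw [abs_le] at hs
        rcases st j hj with h | h | h <;> push_cast <;> linarith
    have n1 := nrm d m (by omega)
    push_cast at n1
    rw [← hδ] at n1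
    have e1 := e K le_rfl
    have r1 := hr K le_rfl 0 (by omega)
    have r2 := hr 0 (by omega) K le_rfl
    rw [abs_le] at hs
    have ds : √5 ≤ d * √5 := le_mul_of_one_le_left (by positivity) d1
    rw [abs_of_pos (by linarith : 0 < δ + d * √5)] at n1
    have t : (1 - β) * ((1 + √5) / 2) = 1 := by rw [hβ]; linarith
    have tp : 0 < (1 + √5) / 2 := by positivity
    have hc' : d * √5 ≤ K * ((1 + √5) / 2) := by
      have := mul_le_mul_of_nonneg_right hc tp.le
      rwa [mul_assoc, show (5 - √5) / 2 * ((1 + √5) / 2) = √5 by linarith] at this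
    rcases le_total δ 0 with h | h
    · rw [abs_of_nonpos h] at n1
      have p1 := mul_le_mul_of_nonneg_left hc' (neg_nonneg.2 h)
      have p2 := mul_lt_mul_of_pos_right (show K * -δ < 1 - β by linarith) tp
      linarith [mul_self_nonneg δ]
    · rw [abs_of_nonneg h] at n1
      have q1 := mul_lt_mul_of_pos_right (show K * δ < 1 - β by linarith) tp
      have q2 : δ * (d * √5) < 1 := by linarith [mul_le_mul_of_nonneg_left hc' h]
      have q3 : K * ((1 + √5) / 2) - d * √5 < δ :=
        lt_of_mul_lt_mul_left (a := δ) (by linarith) h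
      have q8 : (d : ℝ) * √5 ≤ d * 2.2361 := mul_le_mul_of_nonneg_left s3.le (by linarith)
      have q9 : K * 1.618 ≤ K * ((1 + √5) / 2) :=
        mul_le_mul_of_nonneg_left (by linarith) (by positivity)
      have q4 : (K : ℝ) < 2 * d := by linarith
      have n2 := nrm (2 * d - K) (3 * d - 2 * K) (by
        have : K < 2 * d := by exact_mod_cast q4
        omega)
      push_cast at n2
      set η := K * ((1 + √5) / 2) - d * √5 with hη
      have : (2 * d - K) * β - (3 * d - 2 * K) = η := by rw [hβ, hη]; ring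
      have h1 : 0 ≤ η := by linarith
      have h2 : 0 ≤ (2 * d - K) * √5 := mul_nonneg (by linarith) (by positivity)
      rw [this, abs_of_nonneg h1, abs_of_nonneg (by linarith)] at n2
      have q5 : (2 * d - K) * √5 ≤ 0.62 * d * √5 :=
        mul_le_mul_of_nonneg_right (by linarith) (by positivity)
      have q6 : η * (d * √5) ≤ δ * (d * √5) := mul_le_mul_of_nonneg_right q3.le (by linarith)
      have q7 := mul_le_mul_of_nonneg_left (show 2 ≤ d * √5 by linarith) h1
      have q10 := mul_le_mul_of_nonneg_left q5 h1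
      have q11 := mul_le_mul_of_nonneg_left (show η ≤ 0.5 by linarith) h1
      linarith
  · push Not at hs
    have two : ∀ j, j + 2 ≤ K → z (j + 2) - z j = if 0 < δ then 2 * δ - 1 else 2 * δ + 1 := by
      intro j hj
      have a1 := hr (j + 2) hj j (by omega)
      have a2 := hr j (by omega) (j + 2) hj
      rw [abs_le] at hm
      rcases lt_abs.1 hs with h | h
      · rw [if_pos (by linarith)]
        rcases st j (by omega) with p | p | p <;> rcases st (j + 1) (by omega) with q | q | q <;>
          linarith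
      · rw [if_neg (by linarith)]
        rcases st j (by omega) with p | p | p <;> rcases st (j + 1) (by omega) with q | q | q <;>
          linarith
    set ε := if 0 < δ then 2 * δ - 1 else 2 * δ + 1 with hε
    have e : ∀ s t, s + 2 * t ≤ K → z (s + 2 * t) - z s = t * ε := fun s t => by
      induction t with
      | zero => simp
      | succ t ih =>
        intro hj
        have := ih (by omega)
        have := two (s + 2 * t) (by omega)
        rw [show s + 2 * (t + 1) = s + 2 * t + 2 by ring]; push_cast; linarith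
    obtain ⟨T, hT, hT'⟩ : ∃ T, 2 * T ≤ K ∧ K ≤ 2 * T + 1 := ⟨K / 2, by omega, by omega⟩
    have key : |δ| + T * (1 - 2 * |δ|) < 1 - β := by
      rcases T with _ | T
      · simp; linarith
      have e1 := e 0 (T + 1) (by omega)
      have e2 := e 1 T (by omega)
      have r1 := hr (0 + 2 * (T + 1)) (by omega) 1 K1
      have r2 := hr 1 K1 (0 + 2 * (T + 1)) (by omega)
      have r3 := hr (1 + 2 * T) (by omega) 0 (by omega)
      have r4 := hr 0 (by omega) (1 + 2 * T) (by omega)
      have r5 := st 0 K1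
      push_cast at e1 ⊢
      rw [zero_add] at r5
      rcases lt_abs.1 hs with h | h
      · rw [hε, if_pos (by linarith)] at e1 e2
        rw [abs_of_pos (by linarith)]
        rcases r5 with p | p | p <;> linarith
      · rw [hε, if_neg (by linarith)] at e1 e2
        rw [abs_of_neg (by linarith)]
        rcases r5 with p | p | p <;> linarith
    have n1 : 1 ≤ (1 - 2 * |δ|) * (1 - 2 * |δ| + 2 * d * √5) := by
      obtain ⟨b, hb⟩ : ∃ b : ℤ, |((2 * d : ℤ) : ℝ) * β - b| = 1 - 2 * |δ| := by
        rcases le_total 0 δ with h | h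
        · refine ⟨2 * m + 1, ?_⟩
          rw [abs_of_nonneg h] at hm ⊢
          rw [abs_of_nonpos] <;> push_cast <;> linarith
        · refine ⟨2 * m - 1, ?_⟩
          rw [abs_of_nonpos h] at hm ⊢
          rw [abs_of_nonneg] <;> push_cast <;> linarith
      refine (nrm (2 * d) b (by omega)).trans ?_
      rw [← hb]
      refine mul_le_mul_of_nonneg_left ((abs_add_le _ _).trans (le_of_eq ?_)) (abs_nonneg _)
      rw [abs_of_nonneg (a := _ * √5) (by positivity)]; push_cast; rfl
    have hT2 : (K : ℝ) ≤ 2 * T + 1 := by exact_mod_cast hT'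
    set E := 1 - 2 * |δ| with hE
    have E0 : 0 ≤ E := by linarith
    have E1 : E < 0.2361 := by linarith
    have k2 : (2 * T - 1) * E < 0.2361 := by linarith
    have k3 : (2 * T - 1 : ℝ) < 0.06 + 1.06 * d := by
      by_contra hh
      push Not at hh
      have p : E + 2 * d * √5 ≤ 0.2361 + 4.4722 * d := by
        linarith [mul_le_mul_of_nonneg_left s3.le (by linarith : (0 : ℝ) ≤ d)]
      have p1 := mul_le_mul_of_nonneg_left n1 (by linarith : (0 : ℝ) ≤ 2 * T - 1)
      have p2 : (2 * T - 1) * E * (E + 2 * d * √5) ≤ 0.2361 * (0.2361 + 4.4722 * d) :=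
        mul_le_mul k2.le p (by positivity) (by norm_num)
      linarith
    have k4 : 1.38 * (d : ℝ) ≤ K := by
      linarith [mul_le_mul_of_nonneg_left s3.le (by linarith : (0 : ℝ) ≤ d)]
    have k5 : 138 * d ≤ 100 * K := by exact_mod_cast (by linarith : 138 * (d : ℝ) ≤ 100 * K)
    have k6 : 200 * T < 106 + 106 * d := by
      exact_mod_cast (by linarith : 200 * (T : ℝ) < 106 + 106 * d)
    have k7 : d = 1 ∨ d = 2 ∨ d = 3 ∨ d = 5 := by omega
    rw [abs_le] at hm
    have d5 : (d : ℝ) * β < 2 := by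
      rcases k7 with h | h | h | h <;> rw [h] <;> push_cast <;> linarith
    have m1 : m < 3 := by exact_mod_cast (by linarith : (m : ℝ) < 3)
    have m2 : -1 < m := by
      have : 0 ≤ d * β := mul_nonneg (by linarith) (by linarith)
      exact_mod_cast (by linarith : -1 < (m : ℝ))
    have hs' := lt_abs.1 hs
    rw [hδ] at hm hs'
    rcases k7 with h | h | h | h <;> rw [h] at hm hs' <;> interval_cases m <;>
      push_cast at hm hs' <;> rcases hs' with h | h <;> linarith [hm.1, hm.2]

theorem result (d : ℕ) (hd : 1 ≤ d) (i k : ℕ) (h : ∀ j < k, f (i + j * d) = f i) :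
    ((k : ℝ) - 1) / d < √5 / ((1 + √5) / 2) := by
  obtain ⟨s1, s2, s3⟩ := s5
  have hβ : β = (3 - √5) / 2 := rfl
  have d1 : (0 : ℝ) < d := by exact_mod_cast hd
  have e : √5 / ((1 + √5) / 2) = √5 * (1 - β) := by
    rw [div_eq_iff (by positivity), hβ]; linear_combination -(√5 / 4) * s1
  rw [e, div_lt_iff₀ d1, mul_comm]
  rcases k with _ | K
  · have : 0 < √5 * (1 - β) := mul_pos (by linarith) (by linarith)
    have := mul_pos d1 this
    push_cast; linarith
  push_cast
  rw [add_sub_cancel_right]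
  refine main d K hd (fun j => y (i + j * d)) (fun j => ?_) fun j hj l hl => ?_
  · refine ⟨⌊((i + (j + 1) * d + 1 : ℕ) : ℝ) * β⌋ - ⌊((i + j * d + 1 : ℕ) : ℝ) * β⌋, ?_⟩
    simp only [y, Int.fract]; push_cast; ring
  · have h1 := (h j (by omega)).trans (h l (by omega)).symm
    rw [f_eq, f_eq, g, g] at h1
    have a1 : 0 ≤ y (i + l * d) := Int.fract_nonneg _
    have a2 : y (i + j * d) < 1 := Int.fract_lt_one _
    split_ifs at h1 with p q q <;> first | linarith | simp at h1

end Pool.Agent.Results.MP_ca4252_co.Slope
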